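import Pool.Agent.Helper27.AD.Stmts
import Pool.Agent.Helper37.BSC.RES
import Pool.Agent.Helper18.BSC.HEN

/-!
# MP_8312c9_nt, AdelicSections, module CNVA: a geometric section has an integral bounded function
-/

set_option autoImplicit false

open scoped Classical

namespace Pool.Agent.Helper27.AD

open Pool.Agent.Helper14.BSC Pool.Agent.Helper14.BSC.Gen

theorem cnva_lt_iff {F : Type} [Field F] (W : ValuationSubring F) (x : F) :
    W.valuation x < 1 ↔ (x = 0 ∨ x⁻¹ ∉ W) := by
  rw [← ValuationSubring.mem_nonunits_iff, ValuationSubring.mem_nonunits_iff_or]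

/-- the composite valuation ring: elements of `W` whose residue (in `kb`) has norm at most `1` -/
theorem cnva_comp {kb Ω : Type} [Field kb] [Field Ω] [Algebra kb Ω] (W : ValuationSubring Ω)
    (hkb : ∀ c : kb, c ≠ 0 → W.valuation (algebraMap kb Ω c) = 1)
    (hres : ∀ x : Ω, x ∈ W → ∃ c : kb, W.valuation (x - algebraMap kb Ω c) < 1)
    (N : kb → ℝ) (h0 : N 0 = 0) (h1 : N 1 = 1) (hmul : ∀ a b, N (a * b) = N a * N b)
    (hadd : ∀ a b, N (a + b) ≤ max (N a) (N b)) (hneg : ∀ a, N (-a) = N a) (hnn : ∀ a, 0 ≤ N a) :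
    ∃ V : ValuationSubring Ω, ∀ x : Ω, x ∈ V ↔
      ∃ c : kb, W.valuation (x - algebraMap kb Ω c) < 1 ∧ N c ≤ 1 := by
  have hkb1 : ∀ c : kb, W.valuation (algebraMap kb Ω c) ≤ 1 := by
    intro c
    by_cases hc : c = 0
    · rw [hc, map_zero, map_zero]; exact zero_le_one
    · exact (hkb c hc).le
  have hle : ∀ (x : Ω) (c : kb), W.valuation (x - algebraMap kb Ω c) < 1 → W.valuation x ≤ 1 := by
    intro x c h
    have h2 : x = (x - algebraMap kb Ω c) + algebraMap kb Ω c := by ring
    rw [h2]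
    exact (Valuation.map_add _ _ _).trans (max_le h.le (hkb1 c))
  refine ⟨{ carrier := {x | ∃ c : kb, W.valuation (x - algebraMap kb Ω c) < 1 ∧ N c ≤ 1}
            mul_mem' := ?_
            one_mem' := ?_
            add_mem' := ?_
            zero_mem' := ?_
            neg_mem' := ?_
            mem_or_inv_mem' := ?_ }, fun x => Iff.rfl⟩
  · rintro x y ⟨c, hc, hc1⟩ ⟨d, hd, hd1⟩
    refine ⟨c * d, ?_, ?_⟩
    · have h2 : x * y - algebraMap kb Ω (c * d) =
          (x - algebraMap kb Ω c) * y + algebraMap kb Ω c * (y - algebraMap kb Ω d) := by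
        rw [map_mul]; ring
      rw [h2]
      refine (Valuation.map_add _ _ _).trans_lt (max_lt ?_ ?_)
      · rw [map_mul]
        calc W.valuation (x - algebraMap kb Ω c) * W.valuation y
            ≤ W.valuation (x - algebraMap kb Ω c) * 1 := mul_le_mul' le_rfl (hle y d hd)
          _ < 1 := by rw [mul_one]; exact hc
      · rw [map_mul]
        calc W.valuation (algebraMap kb Ω c) * W.valuation (y - algebraMap kb Ω d)
            ≤ 1 * W.valuation (y - algebraMap kb Ω d) := mul_le_mul' (hkb1 c) le_rfl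
          _ < 1 := by rw [one_mul]; exact hd
    · rw [hmul]
      exact mul_le_one₀ hc1 (hnn d) hd1
  · exact ⟨1, by rw [map_one, sub_self, map_zero]; exact zero_lt_one, h1.le⟩
  · rintro x y ⟨c, hc, hc1⟩ ⟨d, hd, hd1⟩
    refine ⟨c + d, ?_, (hadd c d).trans (max_le hc1 hd1)⟩
    have h2 : x + y - algebraMap kb Ω (c + d) =
        (x - algebraMap kb Ω c) + (y - algebraMap kb Ω d) := by
      rw [map_add]; ring
    rw [h2]
    exact (Valuation.map_add _ _ _).trans_lt (max_lt hc hd)
  · exact ⟨0, by rw [map_zero, sub_self, map_zero]; exact zero_lt_one, h0.le.trans zero_le_one⟩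
  · rintro x ⟨c, hc, hc1⟩
    refine ⟨-c, ?_, (hneg c).le.trans hc1⟩
    have h2 : -x - algebraMap kb Ω (-c) = -(x - algebraMap kb Ω c) := by
      rw [map_neg]; ring
    rw [h2, Valuation.map_neg]
    exact hc
  · intro x
    by_cases hx : x ∈ W
    · obtain ⟨c, hc⟩ := hres x hx
      by_cases hc1 : N c ≤ 1
      · exact Or.inl ⟨c, hc, hc1⟩
      · right
        have hc0 : c ≠ 0 := by
          rintro rfl
          exact hc1 (h0.le.trans zero_le_one)
        have hcv := hkb c hc0
        have hca : algebraMap kb Ω c ≠ 0 := (_root_.map_ne_zero _).2 hc0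
        have hxv : W.valuation x = 1 := by
          have h2 : x = (x - algebraMap kb Ω c) + algebraMap kb Ω c := by ring
          rw [h2, Valuation.map_add_eq_of_lt_right _ (by rw [hcv]; exact hc), hcv]
        have hx0 : x ≠ 0 := by
          rintro rfl
          rw [map_zero] at hxv
          exact zero_ne_one hxv
        refine ⟨c⁻¹, ?_, ?_⟩
        · have h2 : x⁻¹ - algebraMap kb Ω c⁻¹ =
              -(x - algebraMap kb Ω c) * (x⁻¹ * (algebraMap kb Ω c)⁻¹) := by
            rw [map_inv₀]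
            field_simp
            ring
          rw [h2, map_mul, Valuation.map_neg, map_mul, map_inv₀, map_inv₀, hxv, hcv, inv_one,
            mul_one, mul_one]
          exact hc
        · have h3 : N c * N c⁻¹ = 1 := by rw [← hmul, mul_inv_cancel₀ hc0, h1]
          push Not at hc1
          by_contra h4
          push Not at h4
          have h5 : 1 < N c * N c⁻¹ := one_lt_mul_of_lt_of_le hc1 h4.le
          exact absurd h3 h5.ne'
    · right
      refine ⟨0, ?_, h0.le.trans zero_le_one⟩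
      rw [map_zero, sub_zero, cnva_lt_iff]
      right
      rwa [inv_inv]

/-- **Module CNVA.** -/
theorem st_CNVA (hHEN : ST_HEN) : ST_CNVA := by
  intro k K kb Ω _ _ _ _ _ _ _ _ _ _ _ _ _ _ _ s hs hG
  obtain ⟨O, ⟨hOt, hOk, hOr, W, hWO, hinv⟩, _⟩ := hG
  -- an element outside `O`
  obtain ⟨u, hu⟩ : ∃ u : K, u ∉ O := by
    by_contra hcon
    push Not at hcon
    exact hOt (by ext x; exact ⟨fun _ => ValuationSubring.mem_top x, fun _ => hcon x⟩)
  have hmemW : ∀ a : K, algebraMap K Ω a ∈ W ↔ a ∈ O := by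
    intro a
    rw [← hWO]
    exact Iff.rfl
  have hk : ∀ c : k, algebraMap k Ω c ∈ W := by
    intro c
    rw [IsScalarTower.algebraMap_apply k K Ω, hmemW]
    exact hOk c
  have hu0 : u ≠ 0 := by
    rintro rfl
    exact hu O.zero_mem
  have hfv : W.valuation (algebraMap K Ω u⁻¹) < 1 := by
    rw [cnva_lt_iff]
    right
    rw [← map_inv₀, inv_inv, hmemW]
    exact hu
  have hres : ∀ a : K, algebraMap K Ω a ∈ W →
      ∃ c : k, W.valuation (algebraMap K Ω a - algebraMap k Ω c) < 1 := by
    intro a ha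
    obtain ⟨c, hc⟩ := hOr a ((hmemW a).1 ha)
    refine ⟨c, ?_⟩
    rw [cnva_lt_iff] at hc ⊢
    have h2 : algebraMap K Ω a - algebraMap k Ω c = algebraMap K Ω (a - algebraMap k K c) := by
      rw [map_sub, ← IsScalarTower.algebraMap_apply]
    rw [h2]
    rcases hc with hc | hc
    · left; rw [hc, map_zero]
    · right; rw [← map_inv₀, hmemW]; exact hc
  have hres2 : ∀ x : Ω, x ∈ W → ∃ c : kb, W.valuation (x - algebraMap kb Ω c) < 1 := by
    intro x hx
    obtain ⟨g, hg, hgx⟩ := res_red (k := k) K W hres x hx (Algebra.IsAlgebraic.isAlgebraic _)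
    obtain ⟨a, ha⟩ := res_root W hk x g hg hgx
    obtain ⟨c, rfl⟩ := (topE k kb Ω).surjective a
    refine ⟨c, ?_⟩
    rw [topE_coe] at ha
    exact ha
  have halg : ∀ c : kb, IsAlgebraic k (algebraMap kb Ω c) := by
    intro c
    have ha : Algebra.IsAlgebraic k kb := IsAlgClosure.isAlgebraic
    exact (ha.isAlgebraic c).algebraMap
  have hkb : ∀ c : kb, c ≠ 0 → W.valuation (algebraMap kb Ω c) = 1 :=
    fun c hc => res_valg1 W hk _ (halg c) ((_root_.map_ne_zero _).2 hc)
  have hsv : ∀ (g : kb ≃ₐ[k] kb) (x : Ω), W.valuation x < 1 → W.valuation (s g x) < 1 := by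
    intro g x hx
    exact hen_inv W (s g).toRingEquiv (fun y => hinv g y) x hx
  refine ⟨u⁻¹, ?_, ?_, ?_⟩
  · rintro ⟨c, hc⟩
    apply hu
    have h2 : u = algebraMap k K c⁻¹ := by rw [map_inv₀, hc, inv_inv]
    rw [h2]
    exact hOk _
  · intro l _ ι
    obtain ⟨V, hV⟩ := cnva_comp (kb := kb) W hkb hres2 (fun c => ‖ι c‖) (by simp) (by simp)
      (by intro a b; simp) (by
        intro a b
        show ‖ι (a + b)‖ ≤ max ‖ι a‖ ‖ι b‖
        rw [map_add]
        exact IsUltrametricDist.norm_add_le_max _ _) (by intro a; simp) (fun a => norm_nonneg _)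
    have hst : ∀ g : kb ≃ₐ[k] kb, (∀ c : kb, ‖ι (g c)‖ = ‖ι c‖) → ∀ x : Ω, x ∈ V → s g x ∈ V := by
      intro g hg x hx
      obtain ⟨c, hc, hc1⟩ := (hV x).1 hx
      refine (hV _).2 ⟨g c, ?_, ?_⟩
      · rw [← hs.2 g c, ← map_sub]
        exact hsv g _ hc
      · rw [hg]
        exact hc1
    refine ⟨V, ?_, ?_, ?_⟩
    · intro c
      constructor
      · intro hc
        obtain ⟨d, hd, hd1⟩ := (hV _).1 hc
        have h2 : c = d := by
          by_contra hne
          have h3 := hkb (c - d) (sub_ne_zero.2 hne)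
          rw [map_sub] at h3
          rw [h3] at hd
          exact lt_irrefl _ hd
        rw [h2]
        exact hd1
      · intro hc
        exact (hV _).2 ⟨c, by rw [sub_self, map_zero]; exact zero_lt_one, hc⟩
    · intro g hg x
      constructor
      · intro hx
        have hg' : ∀ c : kb, ‖ι (g⁻¹ c)‖ = ‖ι c‖ := by
          intro c
          have h2 := hg (g⁻¹ c)
          have h3 : g (g⁻¹ c) = c := by
            rw [← AlgEquiv.mul_apply, mul_inv_cancel]; rfl
          rw [h3] at h2
          exact h2.symm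
        have h4 := hst g⁻¹ hg' _ hx
        have h5 : s g⁻¹ (s g x) = x := by
          rw [← AlgEquiv.mul_apply, ← map_mul, inv_mul_cancel, map_one]; rfl
        rwa [h5] at h4
      · exact hst g hg x
    · refine (hV _).2 ⟨0, ?_, by simp⟩
      rw [map_zero, sub_zero]
      exact hfv
  · intro ι τ _
    have hfD : algebraMap K Ω u⁻¹ ∈ LL (topD s hs) :=
      (top_mem s hs _).2 (fun g => (s g).commutes _)
    have h2 : W.valuation (((1 - (⟨algebraMap K Ω u⁻¹, hfD⟩ : LL (topD s hs)) ^ 2 :
        LL (topD s hs)) : Ω) - 1) < 1 := by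
      have h3 : ((1 - (⟨algebraMap K Ω u⁻¹, hfD⟩ : LL (topD s hs)) ^ 2 :
          LL (topD s hs)) : Ω) - 1 = -(algebraMap K Ω u⁻¹ * algebraMap K Ω u⁻¹) := by
        push_cast
        ring
      rw [h3, Valuation.map_neg, map_mul]
      calc W.valuation (algebraMap K Ω u⁻¹) * W.valuation (algebraMap K Ω u⁻¹)
          ≤ W.valuation (algebraMap K Ω u⁻¹) * 1 := mul_le_mul' le_rfl hfv.le
        _ < 1 := by rw [mul_one]; exact hfv
    obtain ⟨y, hy⟩ := hHEN k Ω (topD s hs) W hk
      (fun g x => by rw [topD_s]; exact hinv _ x) _ h2 2 (by norm_num)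
    refine ⟨1, (y : Ω), (top_mem s hs _).1 y.2 τ, ?_⟩
    have h4 := congrArg (fun z : LL (topD s hs) => (z : Ω)) hy
    push_cast at h4
    rw [← h4]
    push_cast
    ring

end Pool.Agent.Helper27.AD
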