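import Pool.Agent.Helper27.AD.Stmts2
import Pool.Agent.Helper83.AD.CNVA

/-!
# MP_8312c9_nt, AdelicSections, module CNVB: a geometric section has an integral bounded function `f`
with `j / (f - j)` integral for all `j > 0`
-/

set_option autoImplicit false

open scoped Classical

namespace Pool.Agent.Helper27.AD

open Pool.Agent.Helper14.BSC Pool.Agent.Helper14.BSC.Gen

/-- **Module CNVB.** -/
theorem st_CNVB (hHEN : ST_HEN) : ST_CNVB := by
  intro k K kb Ω _ _ _ _ _ _ _ _ _ _ _ _ _ _ _ s hs hG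
  obtain ⟨O, ⟨hOt, hOk, hOr, W, hWO, hinv⟩, _⟩ := hG
  -- an element outside `O`
  obtain ⟨u, hu⟩ : ∃ u : K, u ∉ O := by
    by_contra hcon
    push Not at hcon
    exact hOt (by ext x; exact ⟨fun _ => ValuationSubring.mem_top x, fun _ => hcon x⟩)
  have hmemW : ∀ a : K, algebraMap K Ω a ∈ W ↔ a ∈ O := by
    intro a
    rw [← hWO]
    exact Iff.rfl
  have hk : ∀ c : k, algebraMap k Ω c ∈ W := by
    intro c
    rw [IsScalarTower.algebraMap_apply k K Ω, hmemW]
    exact hOk c
  have hu0 : u ≠ 0 := by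
    rintro rfl
    exact hu O.zero_mem
  have hfv : W.valuation (algebraMap K Ω u⁻¹) < 1 := by
    rw [cnva_lt_iff]
    right
    rw [← map_inv₀, inv_inv, hmemW]
    exact hu
  have hres : ∀ a : K, algebraMap K Ω a ∈ W →
      ∃ c : k, W.valuation (algebraMap K Ω a - algebraMap k Ω c) < 1 := by
    intro a ha
    obtain ⟨c, hc⟩ := hOr a ((hmemW a).1 ha)
    refine ⟨c, ?_⟩
    rw [cnva_lt_iff] at hc ⊢
    have h2 : algebraMap K Ω a - algebraMap k Ω c = algebraMap K Ω (a - algebraMap k K c) := by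
      rw [map_sub, ← IsScalarTower.algebraMap_apply]
    rw [h2]
    rcases hc with hc | hc
    · left; rw [hc, map_zero]
    · right; rw [← map_inv₀, hmemW]; exact hc
  have hres2 : ∀ x : Ω, x ∈ W → ∃ c : kb, W.valuation (x - algebraMap kb Ω c) < 1 := by
    intro x hx
    obtain ⟨g, hg, hgx⟩ := res_red (k := k) K W hres x hx (Algebra.IsAlgebraic.isAlgebraic _)
    obtain ⟨a, ha⟩ := res_root W hk x g hg hgx
    obtain ⟨c, rfl⟩ := (topE k kb Ω).surjective a
    refine ⟨c, ?_⟩
    rw [topE_coe] at ha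
    exact ha
  have halg : ∀ c : kb, IsAlgebraic k (algebraMap kb Ω c) := by
    intro c
    have ha : Algebra.IsAlgebraic k kb := IsAlgClosure.isAlgebraic
    exact (ha.isAlgebraic c).algebraMap
  have hkb : ∀ c : kb, c ≠ 0 → W.valuation (algebraMap kb Ω c) = 1 :=
    fun c hc => res_valg1 W hk _ (halg c) ((_root_.map_ne_zero _).2 hc)
  have hsv : ∀ (g : kb ≃ₐ[k] kb) (x : Ω), W.valuation x < 1 → W.valuation (s g x) < 1 := by
    intro g x hx
    exact hen_inv W (s g).toRingEquiv (fun y => hinv g y) x hx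
  have key : ∀ (x : Ω) (c : kb), W.valuation (x - algebraMap kb Ω c) < 1 →
      (∀ (l : ℕ) [Fact l.Prime] (ι : kb →+* ℂ_[l]), ‖ι c‖ ≤ 1) → Integral s x := by
    intro x₀ c₀ hx₀ hc₀
    intro l _ ι
    obtain ⟨V, hV⟩ := cnva_comp (kb := kb) W hkb hres2 (fun c => ‖ι c‖) (by simp) (by simp)
      (by intro a b; simp) (by
        intro a b
        show ‖ι (a + b)‖ ≤ max ‖ι a‖ ‖ι b‖
        rw [map_add]
        exact IsUltrametricDist.norm_add_le_max _ _) (by intro a; simp) (fun a => norm_nonneg _)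
    have hst : ∀ g : kb ≃ₐ[k] kb, (∀ c : kb, ‖ι (g c)‖ = ‖ι c‖) → ∀ x : Ω, x ∈ V → s g x ∈ V := by
      intro g hg x hx
      obtain ⟨c, hc, hc1⟩ := (hV x).1 hx
      refine (hV _).2 ⟨g c, ?_, ?_⟩
      · rw [← hs.2 g c, ← map_sub]
        exact hsv g _ hc
      · rw [hg]
        exact hc1
    refine ⟨V, ?_, ?_, ?_⟩
    · intro c
      constructor
      · intro hc
        obtain ⟨d, hd, hd1⟩ := (hV _).1 hc
        have h2 : c = d := by
          by_contra hne
          have h3 := hkb (c - d) (sub_ne_zero.2 hne)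
          rw [map_sub] at h3
          rw [h3] at hd
          exact lt_irrefl _ hd
        rw [h2]
        exact hd1
      · intro hc
        exact (hV _).2 ⟨c, by rw [sub_self, map_zero]; exact zero_lt_one, hc⟩
    · intro g hg x
      constructor
      · intro hx
        have hg' : ∀ c : kb, ‖ι (g⁻¹ c)‖ = ‖ι c‖ := by
          intro c
          have h2 := hg (g⁻¹ c)
          have h3 : g (g⁻¹ c) = c := by
            rw [← AlgEquiv.mul_apply, mul_inv_cancel]; rfl
          rw [h3] at h2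
          exact h2.symm
        have h4 := hst g⁻¹ hg' _ hx
        have h5 : s g⁻¹ (s g x) = x := by
          rw [← AlgEquiv.mul_apply, ← map_mul, inv_mul_cancel, map_one]; rfl
        rwa [h5] at h4
      · exact hst g hg x
    · exact (hV _).2 ⟨c₀, hx₀, hc₀ l ι⟩
  refine ⟨u⁻¹, ?_, ?_, ?_, ?_⟩
  · rintro ⟨c, hc⟩
    apply hu
    have h2 : u = algebraMap k K c⁻¹ := by rw [map_inv₀, hc, inv_inv]
    rw [h2]
    exact hOk _
  · refine key _ 0 ?_ ?_
    · rw [map_zero, sub_zero]
      exact hfv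
    · intro l _ ι
      simp
  · intro ι τ _
    have hfD : algebraMap K Ω u⁻¹ ∈ LL (topD s hs) :=
      (top_mem s hs _).2 (fun g => (s g).commutes _)
    have h2 : W.valuation (((1 - (⟨algebraMap K Ω u⁻¹, hfD⟩ : LL (topD s hs)) ^ 2 :
        LL (topD s hs)) : Ω) - 1) < 1 := by
      have h3 : ((1 - (⟨algebraMap K Ω u⁻¹, hfD⟩ : LL (topD s hs)) ^ 2 :
          LL (topD s hs)) : Ω) - 1 = -(algebraMap K Ω u⁻¹ * algebraMap K Ω u⁻¹) := by
        push_cast
        ring
      rw [h3, Valuation.map_neg, map_mul]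
      calc W.valuation (algebraMap K Ω u⁻¹) * W.valuation (algebraMap K Ω u⁻¹)
          ≤ W.valuation (algebraMap K Ω u⁻¹) * 1 := mul_le_mul' le_rfl hfv.le
        _ < 1 := by rw [mul_one]; exact hfv
    obtain ⟨y, hy⟩ := hHEN k Ω (topD s hs) W hk
      (fun g x => by rw [topD_s]; exact hinv _ x) _ h2 2 (by norm_num)
    refine ⟨1, (y : Ω), (top_mem s hs _).1 y.2 τ, ?_⟩
    have h4 := congrArg (fun z : LL (topD s hs) => (z : Ω)) hy
    push_cast at h4
    rw [← h4]
    push_cast
    ring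
  · intro j hj
    have : CharZero K := charZero_of_injective_algebraMap (algebraMap k K).injective
    have : CharZero Ω := charZero_of_injective_algebraMap (algebraMap k Ω).injective
    have hjv : W.valuation ((j : Ω)) = 1 := by
      have h2 : (j : Ω) = algebraMap k Ω (j : k) := by rw [map_natCast]
      rw [h2]
      exact res_vk W hk _ (Nat.cast_ne_zero.2 hj.ne')
    have hfj : W.valuation (algebraMap K Ω u⁻¹ - (j : Ω)) = 1 := by
      rw [Valuation.map_sub_eq_of_lt_right _ (by rw [hjv]; exact hfv), hjv]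
    have hne : algebraMap K Ω u⁻¹ - (j : Ω) ≠ 0 := by
      intro h0
      rw [h0, map_zero] at hfj
      exact zero_ne_one hfj
    refine key _ (-1) ?_ ?_
    · have h3 : algebraMap K Ω ((j : K) / (u⁻¹ - (j : K))) - algebraMap kb Ω (-1) =
          algebraMap K Ω u⁻¹ / (algebraMap K Ω u⁻¹ - (j : Ω)) := by
        rw [map_div₀, map_sub, map_natCast, map_neg, map_one, sub_neg_eq_add, div_add' _ _ _ hne]
        congr 1
        ring
      rw [h3, map_div₀, hfj, div_one]
      exact hfv
    · intro l _ ι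
      simp

end Pool.Agent.Helper27.AD
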